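import Pool.Agent.Helper36.LX.Sheet
import Pool.Agent.Helper92.LG.ED
open MeasureTheory Metric Set Filter Topology
open scoped ENNReal NNReal

/-! Row ED of the sheet `Pool.Agent.Helper36.LX.Sheet`: the edge inequality. -/

namespace H11ST
namespace LX
open LG

namespace X95

lemma FF_mono {x y : ℝ} (hx : 0 ≤ x) (hxy : x ≤ y) : FF x ≤ FF y := by
  rcases eq_or_lt_of_le hxy with h | h
  · rw [h]
  have h1 := LG.ED.Qnn x y hx (hx.trans hxy)
  have h2 : 0 < y - x := by linarith
  nlinarith

/-- the coordinate is a monotone contraction -/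
lemma clip (s t e : ℝ) :
    (max (s - e) 0 - max (t - e) 0) * (FF (max (s - e) 0) - FF (max (t - e) 0)) ≤
      (s - t) * (FF (max (s - e) 0) - FF (max (t - e) 0)) := by
  have hx : 0 ≤ max (s - e) 0 := le_max_right _ _
  have hy : 0 ≤ max (t - e) 0 := le_max_right _ _
  rcases le_total t s with h | h
  · have h1 : max (t - e) 0 ≤ max (s - e) 0 := max_le_max (by linarith) le_rfl
    have h2 := FF_mono hy h1
    have h3 : max (s - e) 0 - max (t - e) 0 ≤ s - t := by
      rcases le_total (s - e) 0 with h4 | h4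
      · rw [max_eq_right h4]
        linarith
      · rw [max_eq_left h4]
        linarith [le_max_left (t - e) 0]
    exact mul_le_mul_of_nonneg_right h3 (by linarith)
  · have h1 : max (s - e) 0 ≤ max (t - e) 0 := max_le_max (by linarith) le_rfl
    have h2 := FF_mono hx h1
    have h3 : max (t - e) 0 - max (s - e) 0 ≤ t - s := by
      rcases le_total (t - e) 0 with h4 | h4
      · rw [max_eq_right h4]
        linarith
      · rw [max_eq_left h4]
        linarith [le_max_left (s - e) 0]
    nlinarith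

end X95

theorem ed : LX_ED := by
  intro hCOO d n p hp a ha b hb
  obtain ⟨-, hc⟩ := hCOO d n p hp
  obtain ⟨-, ha0, ha1, -⟩ := hc a ha
  obtain ⟨-, hb0, hb1, -⟩ := hc b hb
  unfold TE EE
  by_cases hab : a = b
  · subst hab; simp
  have hl : 0 < ‖a - b‖ := norm_pos_iff.2 (sub_ne_zero.2 hab)
  have hs : ∑ k, 2 * |Th (co p a k) - Th (co p b k)| ≤
      ∑ k, (‖a - b‖ * ((co p a k + co p b k) / 2) +
        (inner ℝ a (p k) - inner ℝ b (p k)) * (FF (co p a k) - FF (co p b k)) / ‖a - b‖) := by
    refine Finset.sum_le_sum fun k _ => ?_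
    refine (LG.ED.coord ‖a - b‖ _ _ hl (ha0 k) (hb0 k)).trans ?_
    have h1 := X95.clip (inner ℝ a (p k)) (inner ℝ b (p k)) e0
    exact add_le_add le_rfl (div_le_div_of_nonneg_right h1 hl.le)
  rw [← Finset.mul_sum] at hs
  refine hs.trans ?_
  rw [Finset.sum_add_distrib, ← Finset.mul_sum, ← Finset.sum_div, ← Finset.sum_div,
    Finset.sum_add_distrib]
  have hi : inner ℝ (a - b) (XX p a - XX p b) =
      ∑ k, (inner ℝ a (p k) - inner ℝ b (p k)) * (FF (co p a k) - FF (co p b k)) := by
    have h1 : XX p a - XX p b = ∑ k, (FF (co p a k) - FF (co p b k)) • p k := by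
      unfold XX
      rw [← Finset.sum_sub_distrib]
      exact Finset.sum_congr rfl fun k _ => (sub_smul _ _ _).symm
    rw [h1, inner_sum]
    refine Finset.sum_congr rfl fun k _ => ?_
    rw [real_inner_smul_right, inner_sub_left]
    ring
  rw [hi]
  have h2 : ‖a - b‖ * ((∑ k, co p a k + ∑ k, co p b k) / 2) ≤ ‖a - b‖ * 1 :=
    mul_le_mul_of_nonneg_left (by linarith) hl.le
  linarith

end LX
end H11ST
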